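import Pool.Agent.Y116.MC.Defs

/-!
# The motives on which a derivation is determined by its values on a given motive
-/

set_option autoImplicit false
set_option linter.unusedSectionVars false

open CategoryTheory Limits MonoidalCategory AlgebraicGeometry

namespace Pool.Agent.Y116.MC

open Pool.Agent.Y116.UV Pool.Agent.Y101.Th

universe v u

attribute [local instance] Abelian.hasFiniteBiproducts

variable {𝒜 : Type u} [Category.{v} 𝒜] [Abelian 𝒜] [MonoidalCategory 𝒜]
  {F : Type} [Field F] {V : 𝒜 ⥤ ModuleCat.{0} F}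

lemma Fac.refl (A : 𝒜) : Fac A A := ⟨⟨𝟙 A, 𝟙 A, by simp⟩⟩

lemma Fac.trans {A B C : 𝒜} : Fac A B → Fac B C → Fac A C := by
  rintro ⟨r⟩ ⟨s⟩
  exact ⟨⟨r.i ≫ s.i, s.r ≫ r.r, by simp⟩⟩

lemma Fac.of_iso {A B : 𝒜} (e : A ≅ B) : Fac A B := ⟨⟨e.hom, e.inv, by simp⟩⟩

lemma Fac.tensor {A B A' B' : 𝒜} : Fac A B → Fac A' B' → Fac (A ⊗ A') (B ⊗ B') := by
  rintro ⟨r⟩ ⟨s⟩
  exact ⟨⟨r.i ⊗ₘ s.i, r.r ⊗ₘ s.r, by simp⟩⟩

lemma Fac.of_isZero {A B : 𝒜} (h : IsZero A) : Fac A B := ⟨⟨0, 0, h.eq_of_src _ _⟩⟩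

lemma fac_big {J : Type} [Finite J] (f : J → 𝒜) (j : J) : Fac (f j) (⨁ f) :=
  ⟨⟨biproduct.ι f j, biproduct.π f j, biproduct.ι_π_self f j⟩⟩

lemma fac_inl (A B : 𝒜) : Fac A (A ⊞ B) := ⟨⟨biprod.inl, biprod.fst, by simp⟩⟩

lemma fac_inr (A B : 𝒜) : Fac B (A ⊞ B) := ⟨⟨biprod.inr, biprod.snd, by simp⟩⟩

/-- in a semisimple category an exact sequence `A → B → C` makes `B` a direct factor of `A ⊞ C` -/
lemma fac_of_exact (hs : ∀ S : ShortComplex 𝒜, S.ShortExact → Nonempty S.Splitting)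
    {A B C : 𝒜} (f : A ⟶ B) (g : B ⟶ C) (w : f ≫ g = 0) (h : (ShortComplex.mk f g w).Exact) :
    Fac B (A ⊞ C) := by
  -- the kernel of `g`
  have hf : Epi (kernel.lift g f w) := h.epi_kernelLift
  let S1 : ShortComplex 𝒜 := ShortComplex.mk (kernel.ι (kernel.lift g f w)) (kernel.lift g f w)
    (kernel.condition _)
  have h1 : S1.ShortExact := by
    refine ⟨?_⟩
    exact ShortComplex.exact_kernel _
  obtain ⟨s1⟩ := hs S1 h1
  let S2 : ShortComplex 𝒜 := ShortComplex.mk (kernel.ι g) (Abelian.factorThruImage g) (by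
    rw [← cancel_mono (Abelian.image.ι g)]
    simp)
  have h2 : S2.ShortExact := by
    refine ⟨?_⟩
    have h21 : (ShortComplex.mk (kernel.ι g) g (kernel.condition g)).Exact :=
      ShortComplex.exact_kernel g
    let φ : S2 ⟶ ShortComplex.mk (kernel.ι g) g (kernel.condition g) :=
      { τ₁ := 𝟙 _
        τ₂ := 𝟙 _
        τ₃ := Abelian.image.ι g
        comm₁₂ := by simp [S2]
        comm₂₃ := by simp [S2] }
    have i1 : Epi φ.τ₁ := by dsimp [φ]; infer_instance
    have i2 : IsIso φ.τ₂ := by dsimp [φ]; infer_instance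
    have i3 : Mono φ.τ₃ := by dsimp [φ]; infer_instance
    exact (ShortComplex.exact_iff_of_epi_of_isIso_of_mono φ).2 h21
  obtain ⟨s2⟩ := hs S2 h2
  let S3 : ShortComplex 𝒜 := ShortComplex.mk (Abelian.image.ι g) (cokernel.π (Abelian.image.ι g))
    (cokernel.condition _)
  have h3 : S3.ShortExact := by
    refine ⟨?_⟩
    exact ShortComplex.exact_cokernel _
  obtain ⟨s3⟩ := hs S3 h3
  refine ⟨⟨biprod.lift (s2.r ≫ s1.s) g, biprod.desc f (s3.r ≫ s2.s), ?_⟩⟩
  have e1 : s1.s ≫ kernel.lift g f w = 𝟙 _ := s1.s_g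
  have e2 : kernel.lift g f w ≫ kernel.ι g = f := kernel.lift_ι g f w
  have e3 : Abelian.image.ι g ≫ s3.r = 𝟙 _ := s3.f_r
  have e4 : Abelian.factorThruImage g ≫ Abelian.image.ι g = g := Abelian.image.fac g
  have e5 : s2.r ≫ kernel.ι g + Abelian.factorThruImage g ≫ s2.s = 𝟙 _ := s2.id
  rw [biprod.lift_desc]
  have e6 : (s2.r ≫ s1.s) ≫ f = s2.r ≫ kernel.ι g := by
    rw [← e2, Category.assoc, reassoc_of% e1]
  have e7 : g ≫ s3.r ≫ s2.s = Abelian.factorThruImage g ≫ s2.s := by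
    conv_lhs => rw [← e4]
    rw [Category.assoc, reassoc_of% e3]
  rw [e6, e7, e5]

/-- The motives on which the derivations are determined by their values on `A`. -/
inductive Gen (V : 𝒜 ⥤ ModuleCat.{0} F) (A : 𝒜) : 𝒜 → Prop
  | base : Gen V A A
  | unit : Gen V A (𝟙_ 𝒜)
  | tensor {B C : 𝒜} : Gen V A B → Gen V A C → Gen V A (B ⊗ C)
  | fac {B C : 𝒜} : Fac B C → Gen V A C → Gen V A B
  | sum {B C : 𝒜} : Gen V A B → Gen V A C → Gen V A (B ⊞ C)
  | bigsum {J : Type} [Finite J] (f : J → 𝒜) : (∀ j, Gen V A (f j)) → Gen V A (⨁ f)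
  | root {B : 𝒜} : Gen V A (B ⊗ B) → Gen V A B
  | cancel {B C : 𝒜} : Nontrivial (V.obj C) → Gen V A (B ⊗ C) → Gen V A C → Gen V A B

lemma Gen.trans {A B C : 𝒜} (h1 : Gen V A B) (h2 : Gen V B C) : Gen V A C := by
  induction h2 with
  | base => exact h1
  | unit => exact Gen.unit
  | tensor _ _ h h' => exact Gen.tensor h h'
  | fac hf _ h => exact Gen.fac hf h
  | sum _ _ h h' => exact Gen.sum h h'
  | bigsum f _ h => exact Gen.bigsum f h
  | root _ h => exact Gen.root h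
  | cancel hn _ _ h h' => exact Gen.cancel hn h h'

section linear

variable {W U : Type} [AddCommGroup W] [Module F W] [AddCommGroup U] [Module F U]

open TensorProduct in
lemma lin_root [CharZero F] (f g : W →ₗ[F] W)
    (h : ∀ x : W, f x ⊗ₜ[F] x + x ⊗ₜ[F] f x = g x ⊗ₜ[F] x + x ⊗ₜ[F] g x) : f = g := by
  ext x
  by_contra hne
  have hx : x ≠ 0 := by
    rintro rfl
    exact hne (by simp)
  set y := f x - g x with hy
  have hy0 : y ≠ 0 := fun h0 => hne (sub_eq_zero.mp h0)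
  have h1 : y ⊗ₜ[F] x + x ⊗ₜ[F] y = 0 := by
    have h2 := h x
    rw [hy, TensorProduct.sub_tmul, TensorProduct.tmul_sub]
    have h3 : f x ⊗ₜ[F] x - g x ⊗ₜ[F] x + (x ⊗ₜ[F] f x - x ⊗ₜ[F] g x) =
        (f x ⊗ₜ[F] x + x ⊗ₜ[F] f x) - (g x ⊗ₜ[F] x + x ⊗ₜ[F] g x) := by abel
    rw [h3, h2, sub_self]
  obtain ⟨φ, hφ⟩ : ∃ φ : W →ₗ[F] F, φ x = 1 := Module.Projective.exists_dual_eq_one F hx
  have h2 : φ y • x + y = 0 := by
    have h3 := congrArg ((TensorProduct.lid F W).toLinearMap ∘ₗ (φ.rTensor W)) h1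
    simpa [hφ] using h3
  have h4 : φ y + φ y = 0 := by
    have h5 := congrArg φ h2
    simpa [hφ] using h5
  have h5 : φ y = 0 := by
    have : (2 : F) * φ y = 0 := by rw [two_mul]; exact h4
    exact (mul_eq_zero.mp this).resolve_left two_ne_zero
  rw [h5, zero_smul, zero_add] at h2
  exact hy0 h2

open TensorProduct in
lemma lin_cancel [Nontrivial U] (f g : W →ₗ[F] W)
    (h : ∀ (x : W) (c : U), f x ⊗ₜ[F] c = g x ⊗ₜ[F] c) : f = g := by
  obtain ⟨c, hc⟩ := exists_ne (0 : U)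
  ext x
  obtain ⟨φ, hφ⟩ : ∃ φ : U →ₗ[F] F, φ c = 1 := Module.Projective.exists_dual_eq_one F hc
  have h1 := congrArg ((TensorProduct.rid F W).toLinearMap ∘ₗ (φ.lTensor W)) (h x c)
  simpa [hφ] using h1

end linear

section der

variable [V.Monoidal]

lemma der_fac {B C : 𝒜} (h : Fac B C) (D D' : Der V) (hC : D.app.app C = D'.app.app C) :
    D.app.app B = D'.app.app B := by
  obtain ⟨r⟩ := h
  have key : ∀ D : Der V, D.app.app B = V.map r.i ≫ D.app.app C ≫ V.map r.r := by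
    intro D
    rw [← D.app.naturality r.r, ← Category.assoc, ← V.map_comp, r.retract, V.map_id,
      Category.id_comp]
  rw [key D, key D', hC]

lemma der_tensor (B C : 𝒜) (D : Der V) : D.app.app (B ⊗ C) =
    inv (Functor.LaxMonoidal.μ V B C) ≫ (D.app.app B ▷ V.obj C + V.obj B ◁ D.app.app C) ≫
      Functor.LaxMonoidal.μ V B C := by
  rw [← D.leibniz, IsIso.inv_hom_id_assoc]

lemma der_tensor' {B C : 𝒜} (D D' : Der V) (h : D.app.app (B ⊗ C) = D'.app.app (B ⊗ C)) :
    (D.app.app B ▷ V.obj C + V.obj B ◁ D.app.app C) =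
      (D'.app.app B ▷ V.obj C + V.obj B ◁ D'.app.app C) := by
  rw [← cancel_mono (Functor.LaxMonoidal.μ V B C), ← D.leibniz, ← D'.leibniz, h]

open TensorProduct in
lemma der_point {B C : 𝒜} (D D' : Der V) (h : D.app.app (B ⊗ C) = D'.app.app (B ⊗ C))
    (x : V.obj B) (y : V.obj C) :
    (D.app.app B x) ⊗ₜ[F] y + x ⊗ₜ[F] (D.app.app C y) =
      (D'.app.app B x) ⊗ₜ[F] y + x ⊗ₜ[F] (D'.app.app C y) := by
  have h1 := der_tensor' D D' h
  have h2 := congrArg (fun f => f (x ⊗ₜ[F] y)) h1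
  exact h2

/-- A derivation is determined on the motives generated by `A` by its value on `A`. -/
theorem eq_of_gen [CharZero F] [V.Additive] {A B : 𝒜} (h : Gen V A B) (D D' : Der V)
    (hA : D.app.app A = D'.app.app A) : D.app.app B = D'.app.app B := by
  induction h with
  | base => exact hA
  | unit => rw [D.unit, D'.unit]
  | tensor _ _ h1 h2 => rw [der_tensor, der_tensor, h1, h2]
  | fac hf _ h => exact der_fac hf D D' h
  | @sum B C _ _ h1 h2 =>
    have key : ∀ D : Der V, D.app.app (B ⊞ C) =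
        V.map biprod.fst ≫ D.app.app B ≫ V.map biprod.inl +
          V.map biprod.snd ≫ D.app.app C ≫ V.map biprod.inr := by
      intro D
      have e : 𝟙 (V.obj (B ⊞ C)) = V.map biprod.fst ≫ V.map biprod.inl +
          V.map biprod.snd ≫ V.map biprod.inr := by
        rw [← V.map_comp, ← V.map_comp, ← V.map_add, biprod.total, V.map_id]
      rw [← D.app.naturality, ← D.app.naturality, ← Category.assoc, ← Category.assoc,
        ← Preadditive.add_comp, ← e, Category.id_comp]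
    rw [key D, key D', h1, h2]
  | @bigsum J _ f _ h =>
    classical
    have := Fintype.ofFinite J
    have key : ∀ D : Der V, D.app.app (⨁ f) =
        ∑ j, V.map (biproduct.π f j) ≫ D.app.app (f j) ≫ V.map (biproduct.ι f j) := by
      intro D
      have e : 𝟙 (V.obj (⨁ f)) = ∑ j, V.map (biproduct.π f j) ≫ V.map (biproduct.ι f j) := by
        rw [← V.map_id, ← biproduct.total, V.map_sum]
        simp only [V.map_comp]
      rw [← Category.id_comp (D.app.app (⨁ f)), e, Preadditive.sum_comp]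
      refine Finset.sum_congr rfl fun j _ => ?_
      rw [Category.assoc, D.app.naturality]
    rw [key D, key D']
    exact Finset.sum_congr rfl fun j _ => by rw [h j]
  | @root B _ h =>
    apply ModuleCat.hom_ext
    exact lin_root _ _ fun x => der_point D D' h x x
  | @cancel B C hn _ _ h1 h2 =>
    apply ModuleCat.hom_ext
    refine lin_cancel (U := V.obj C) _ _ fun x c => ?_
    have h3 := der_point D D' h1 x c
    rw [h2] at h3
    exact add_right_cancel h3

/-- The Mumford–Tate conjecture is inherited by the motives generated by a motive. -/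
theorem agree_of_gen [CharZero F] [V.Additive] {𝔤 𝔥 : Set (Der V)} {A B : 𝒜} (h : Gen V A B)
    (hA : Agree 𝔤 𝔥 A) : Agree 𝔤 𝔥 B := by
  ext x
  constructor
  · rintro ⟨D, hD, rfl⟩
    have h1 : D.app.app A ∈ (fun D : Der V => D.app.app A) '' 𝔥 := by
      rw [← hA]
      exact ⟨D, hD, rfl⟩
    obtain ⟨D', hD', h2⟩ := h1
    exact ⟨D', hD', eq_of_gen h D' D h2⟩
  · rintro ⟨D, hD, rfl⟩
    have h1 : D.app.app A ∈ (fun D : Der V => D.app.app A) '' 𝔤 := by
      rw [hA]
      exact ⟨D, hD, rfl⟩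
    obtain ⟨D', hD', h2⟩ := h1
    exact ⟨D', hD', eq_of_gen h D' D h2⟩

end der

end Pool.Agent.Y116.MC
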