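import Pool.Agent.Y101.Th.PairDefs
import Pool.Agent.Y101.Th.BilDefs

/-!
# Pure motives over the algebraic numbers and derivations of a realisation: definitions
-/

set_option autoImplicit false

open CategoryTheory Limits MonoidalCategory AlgebraicGeometry

namespace Pool.Agent.Y116.MC

open Pool.Agent.Y116.UV Pool.Agent.Y101.Th

universe v u

/-- `A` is a direct factor of `B`. -/
def Fac {𝒜 : Type u} [Category.{v} 𝒜] (A B : 𝒜) : Prop := Nonempty (Retract A B)

/-- A derivation of the tensor functor `V`: natural endomorphisms `D_A` of the `V(A)` with `D_1 = 0`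
and `D_(A ⊗ B) = D_A ⊗ 1 + 1 ⊗ D_B`. For the category `𝒜` of pure motives over the algebraic numbers
and the `ℓ`-adic realisation `V` these are the elements of the Lie algebra, over `ℚ_ℓ`, of the
motivic Galois group. -/
structure Der {𝒜 : Type u} [Category.{v} 𝒜] [MonoidalCategory 𝒜] {F : Type} [Field F]
    (V : 𝒜 ⥤ ModuleCat.{0} F) [V.Monoidal] where
  app : V ⟶ V
  unit : app.app (𝟙_ 𝒜) = 0
  leibniz : ∀ A B : 𝒜, Functor.LaxMonoidal.μ V A B ≫ app.app (A ⊗ B) =
    (app.app A ▷ V.obj B + V.obj A ◁ app.app B) ≫ Functor.LaxMonoidal.μ V A B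

/-- The derivations in `𝔤` and in `𝔥` have the same images in the endomorphisms of `V(A)`. With the
Lie algebras `𝔤` of the `ℓ`-adic monodromy groups and `𝔥` of the Mumford–Tate groups (over `ℚ_ℓ`)
this is the Mumford–Tate conjecture for the motive `A` and the prime `ℓ`: two connected groups in
characteristic zero are equal if and only if their Lie algebras are. -/
def Agree {𝒜 : Type u} [Category.{v} 𝒜] [MonoidalCategory 𝒜] {F : Type} [Field F]
    {V : 𝒜 ⥤ ModuleCat.{0} F} [V.Monoidal] (𝔤 𝔥 : Set (Der V)) (A : 𝒜) : Prop :=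
  (fun D : Der V => D.app.app A) '' 𝔤 = (fun D : Der V => D.app.app A) '' 𝔥

/-- `L ⊗ ... ⊗ L` -/
def lpow {𝒜 : Type u} [Category.{v} 𝒜] [MonoidalCategory 𝒜] (L : 𝒜) : ℕ → 𝒜
  | 0 => 𝟙_ 𝒜
  | n + 1 => lpow L n ⊗ L

/-- the algebraic numbers -/
abbrev QBar : Type := AlgebraicClosure ℚ

/-- The data: `H X i = h^i(X)`, the pure motive of degree `i` of the smooth projective schemes `X`
over the algebraic numbers; `E Y i = ⨁_w gr^W_w h^i_c(Y)`, the sum of the weight graded parts of the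
motive of `H^i_c` of `Y ⊗ QBar`, for schemes `Y` of finite type over `ℚ`; the Lefschetz motive
`L = ℚ(-1)`. -/
structure Coh (𝒜 : Type u) where
  H : Sch QBar → ℤ → 𝒜
  E : Sch ℚ → ℤ → 𝒜
  L : 𝒜

attribute [local instance] Abelian.hasFiniteBiproducts

variable {𝒜 : Type u} [Category.{v} 𝒜] [Abelian 𝒜] [MonoidalCategory 𝒜]

/-- the cohomology of `X` in the degrees `0, ..., n - 1` -/
noncomputable def Coh.tot (T : Coh 𝒜) (X : Sch QBar) (n : ℕ) : 𝒜 :=
  ⨁ fun q : Fin n => T.H X (q : ℤ)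

/-- The systems of fewer than `N` bilinear equations, with coefficients `0` and `1`, in fewer than
`N` variables `y` and fewer than `C` variables `z`, together with a degree smaller than `N`. -/
abbrev Idx (N C : ℕ) : Type :=
  (a : Fin N) × (b : Fin N) × (c : Fin C) × ((Fin a → Fin b → Fin c → Bool) × Fin N)

/-- the scheme of the solutions of the bilinear equations -/
noncomputable def Idx.sch {N C : ℕ} (x : Idx N C) : Sch ℚ :=
  bilS fun i j l => if x.2.2.2.1 i j l then (1 : ℚ) else 0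

/-- the motive `⨁ E(B_t, i) ⊕ L`, the sum over the elements of `Idx N C` -/
noncomputable def Coh.M (T : Coh 𝒜) (N C : ℕ) : 𝒜 :=
  (⨁ fun x : Idx N C => T.E x.sch (x.2.2.2.2 : ℤ)) ⊞ T.L

/-- the exact sequences `E U i → E X i → E Z i` and `E Z i → E U (i + 1) → E X (i + 1)` -/
def HasLocalization (T : Coh 𝒜) (Z X U : Sch ℚ) : Prop :=
  ∀ i : ℤ, ∃ (f : T.E U i ⟶ T.E X i) (g : T.E X i ⟶ T.E Z i) (δ : T.E Z i ⟶ T.E U (i + 1))
    (f' : T.E U (i + 1) ⟶ T.E X (i + 1)) (w : f ≫ g = 0) (w' : δ ≫ f' = 0),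
    (ShortComplex.mk f g w).Exact ∧ (ShortComplex.mk δ f' w').Exact

/-- Known properties of pure motives over the algebraic numbers (for motivated cycles, or for
absolute Hodge cycles): the category is semisimple; `V(L)` is not zero; isomorphism invariance;
localization sequences; `h^i_c(Y × 𝔸^n)`; `h^i_c(Y)` is a direct factor of `h^(i+1)_c(Y × 𝔾_m)`
(both for affine `Y`); the empty scheme; the point; negative degrees; smooth projective schemes over
the algebraic numbers are open and closed in `Y ⊗ QBar` for a model `Y` over a number field;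
the weight graded parts of `h^i_c(Y)` are direct factors of the motives of smooth projective schemes
of at most the same dimension (resolution of singularities); disjoint unions; components; Künneth
formula; `h^0(X) = 1`; the projective line. -/
structure IsCoh {F : Type} [Field F] (V : 𝒜 ⥤ ModuleCat.{0} F) (T : Coh 𝒜) : Prop where
  semisimple : ∀ S : ShortComplex 𝒜, S.ShortExact → Nonempty S.Splitting
  lefschetz : Nontrivial (V.obj T.L)
  iso : ∀ {X Y : Sch ℚ}, FT True X → Nonempty (X ≅ Y) → ∀ i, Nonempty (T.E X i ≅ T.E Y i)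
  localization : ∀ {Z X U : Sch ℚ} (a : Z ⟶ X) (b : U ⟶ X), FT True X → IsTriple a b →
    HasLocalization T Z X U
  space : ∀ (A : Type) [CommRing A] [Algebra ℚ A] [Algebra.FiniteType ℚ A] (n : ℕ) (i : ℤ),
    Nonempty (T.E (aff ℚ (MvPolynomial (Fin n) A)) (i + 2 * n) ≅ T.E (aff ℚ A) i ⊗ lpow T.L n)
  torus : ∀ (A : Type) [CommRing A] [Algebra ℚ A] [Algebra.FiniteType ℚ A] (i : ℤ),
    Fac (T.E (aff ℚ A) i) (T.E (aff ℚ (LaurentPolynomial A)) (i + 1))
  empty : ∀ (A : Type) [CommRing A] [Algebra ℚ A], Subsingleton A →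
    ∀ i, IsZero (T.E (aff ℚ A) i)
  point : Nonempty (T.E (aff ℚ ℚ) 0 ≅ 𝟙_ 𝒜) ∧ ∀ i, i ≠ 0 → IsZero (T.E (aff ℚ ℚ) i)
  negative : ∀ Y : Sch ℚ, FT True Y → ∀ i, i < 0 → IsZero (T.E Y i)
  negativeH : ∀ X : Sch QBar, SmProj X → ∀ i, i < 0 → IsZero (T.H X i)
  model : ∀ X : Sch QBar, SmProj X → ∃ Y : Sch ℚ, FT True Y ∧
    (∀ d : ℕ, topologicalKrullDim X.left ≤ d → topologicalKrullDim Y.left ≤ d) ∧
    ∀ i, Fac (T.H X i) (T.E Y i)
  resolution : ∀ Y : Sch ℚ, FT True Y → ∀ d : ℕ, topologicalKrullDim Y.left ≤ d → ∀ i,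
    ∃ X : Sch QBar, SmProj X ∧ topologicalKrullDim X.left ≤ d ∧ ∃ n, Fac (T.E Y i) (T.tot X n)
  disjoint : ∀ (d : ℕ) (X X' : Sch QBar), SmProj X → topologicalKrullDim X.left ≤ d →
    SmProj X' → topologicalKrullDim X'.left ≤ d → ∃ X'' : Sch QBar, SmProj X'' ∧
      topologicalKrullDim X''.left ≤ d ∧ ∀ i, Fac (T.H X i) (T.H X'' i) ∧ Fac (T.H X' i) (T.H X'' i)
  components : ∀ X : Sch QBar, SmProj X → ∃ (r : ℕ) (Y : Fin r → Sch QBar),
    (∀ k, SmProj (Y k) ∧ IrreducibleSpace (Y k).left) ∧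
      ∀ i, Fac (T.H X i) (⨁ fun k => T.H (Y k) i)
  kunneth : ∀ X Y : Sch QBar, SmProj X → IrreducibleSpace X.left → SmProj Y →
    IrreducibleSpace Y.left → ∃ Z : Sch QBar, SmProj Z ∧ IrreducibleSpace Z.left ∧
      ∀ i j, Fac (T.H X i ⊗ T.H Y j) (T.H Z (i + j))
  unit : ∀ X : Sch QBar, SmProj X → IrreducibleSpace X.left → Fac (𝟙_ 𝒜) (T.H X 0)
  line : ∃ X : Sch QBar, SmProj X ∧ IrreducibleSpace X.left ∧ topologicalKrullDim X.left ≤ 1 ∧
    Fac T.L (T.H X 2)

end Pool.Agent.Y116.MC
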