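import Pool.Agent.Y116.MC.Gen
import Pool.Agent.Y101.Th.RMain
import Pool.Agent.Y101.Th.Swap

/-!
# The motives of schemes of finite type that are generated by a directed family
-/

set_option autoImplicit false
set_option linter.unusedSectionVars false

open CategoryTheory Limits MonoidalCategory AlgebraicGeometry

namespace Pool.Agent.Y116.MC

open Pool.Agent.Y116.UV Pool.Agent.Y101.Th Pool.Agent.Y101.Th.RX

universe v u w

attribute [local instance] Abelian.hasFiniteBiproducts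

variable {𝒜 : Type u} [Category.{v} 𝒜] [Abelian 𝒜] [MonoidalCategory 𝒜]
  {F : Type} [Field F] {V : 𝒜 ⥤ ModuleCat.{0} F} {T : Coh 𝒜}

/-- a family of motives, directed for generation -/
def IsDir (V : 𝒜 ⥤ ModuleCat.{0} F) {ι : Type w} (B : ι → 𝒜) : Prop :=
  ∀ i j, ∃ k, Gen V (B k) (B i) ∧ Gen V (B k) (B j)

section dir

variable {ι : Type w} {B : ι → 𝒜}

lemma dir_two (hB : IsDir V B) {X Y : 𝒜} (h1 : ∃ i, Gen V (B i) X) (h2 : ∃ i, Gen V (B i) Y) :
    ∃ i, Gen V (B i) X ∧ Gen V (B i) Y := by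
  obtain ⟨i, hi⟩ := h1
  obtain ⟨j, hj⟩ := h2
  obtain ⟨k, hki, hkj⟩ := hB i j
  exact ⟨k, hki.trans hi, hkj.trans hj⟩

lemma dir_fin (hB : IsDir V B) [Nonempty ι] {J : Type} [Finite J] (f : J → 𝒜)
    (h : ∀ j, ∃ i, Gen V (B i) (f j)) : ∃ i, ∀ j, Gen V (B i) (f j) := by
  classical
  have := Fintype.ofFinite J
  suffices H : ∀ s : Finset J, ∃ i, ∀ j ∈ s, Gen V (B i) (f j) by
    obtain ⟨i, hi⟩ := H Finset.univ
    exact ⟨i, fun j => hi j (Finset.mem_univ j)⟩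
  intro s
  induction s using Finset.induction_on with
  | empty => exact ⟨Classical.arbitrary ι, fun j hj => absurd hj (Finset.notMem_empty j)⟩
  | insert a s _ ih =>
    obtain ⟨i, hi⟩ := ih
    obtain ⟨j, hj⟩ := h a
    obtain ⟨k, hki, hkj⟩ := hB i j
    refine ⟨k, fun x hx => ?_⟩
    rcases Finset.mem_insert.mp hx with rfl | hx
    · exact hkj.trans hj
    · exact hki.trans (hi x hx)

lemma dir_big (hB : IsDir V B) [Nonempty ι] {J : Type} [Finite J] (f : J → 𝒜)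
    (h : ∀ j, ∃ i, Gen V (B i) (f j)) : ∃ i, Gen V (B i) (⨁ f) := by
  obtain ⟨i, hi⟩ := dir_fin hB f h
  exact ⟨i, Gen.bigsum f hi⟩

lemma gen_lpow {A L : 𝒜} (h : Gen V A L) (n : ℕ) : Gen V A (lpow L n) := by
  induction n with
  | zero => exact Gen.unit
  | succ n ih => exact Gen.tensor ih h

lemma gen_zero {A B : 𝒜} (h : IsZero B) : Gen V A B := Gen.fac (Fac.of_isZero h) (Gen.unit)

/-- all `h^i_c(Y)` are generated by members of the family `B` -/
def PE (V : 𝒜 ⥤ ModuleCat.{0} F) (T : Coh 𝒜) (B : ι → 𝒜) (Y : Sch ℚ) : Prop :=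
  ∀ i : ℤ, ∃ j, Gen V (B j) (T.E Y i)

/-- The property is closed under closed-open decompositions, affine spaces and tori. -/
theorem ru_of_dir (hT : IsCoh V T) (hB : IsDir V B) (hL : ∃ j, Gen V (B j) T.L) :
    RU True (PE V T B) where
  iso := by
    intro X Y hX e h i
    obtain ⟨j, hj⟩ := h i
    obtain ⟨e'⟩ := hT.iso hX e i
    exact ⟨j, Gen.fac (Fac.of_iso e'.symm) hj⟩
  total := by
    intro Z X U a b hX ht hZ hU i
    obtain ⟨f, g, δ, f', w, w', h1, h2⟩ := hT.localization a b hX ht i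
    obtain ⟨k, hk1, hk2⟩ := dir_two hB (hU i) (hZ i)
    exact ⟨k, Gen.fac (fac_of_exact hT.semisimple f g w h1) (Gen.sum hk1 hk2)⟩
  opened := by
    intro Z X U a b hX ht hZ hX' i
    obtain ⟨i, rfl⟩ : ∃ i', i = i' + 1 := ⟨i - 1, by ring⟩
    obtain ⟨f, g, δ, f', w, w', h1, h2⟩ := hT.localization a b hX ht i
    obtain ⟨k, hk1, hk2⟩ := dir_two hB (hZ i) (hX' (i + 1))
    exact ⟨k, Gen.fac (fac_of_exact hT.semisimple δ f' w' h2) (Gen.sum hk1 hk2)⟩
  space := by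
    intro n i
    obtain ⟨i, rfl⟩ : ∃ i', i = i' + 2 * (n : ℤ) := ⟨i - 2 * n, by ring⟩
    obtain ⟨e⟩ := hT.space ℚ n i
    obtain ⟨j, hj⟩ := hL
    refine ⟨j, Gen.fac (Fac.of_iso e) (Gen.tensor ?_ (gen_lpow hj n))⟩
    by_cases hi : i = 0
    · subst hi
      obtain ⟨e⟩ := hT.point.1
      exact Gen.fac (Fac.of_iso e) Gen.unit
    · exact gen_zero (hT.point.2 i hi)
  poly := by
    intro A _ _ _ n h i
    obtain ⟨i, rfl⟩ : ∃ i', i = i' + 2 * (n : ℤ) := ⟨i - 2 * n, by ring⟩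
    obtain ⟨e⟩ := hT.space A n i
    obtain ⟨k, hk1, hk2⟩ := dir_two hB (h i) hL
    exact ⟨k, Gen.fac (Fac.of_iso e) (Gen.tensor hk1 (gen_lpow hk2 n))⟩
  torus := by
    intro A _ _ _ h i
    obtain ⟨k, hk⟩ := h (i + 1)
    exact ⟨k, Gen.fac (hT.torus A i) hk⟩
  empty := by
    intro A _ _ hA i
    obtain ⟨j, _⟩ := hL
    exact ⟨j, gen_zero (hT.empty A hA i)⟩

end dir

/-! ### The explicit motives -/

lemma comp_gen {N C : ℕ} (x : Idx N C) : Gen V (T.M N C) (T.E x.sch (x.2.2.2.2 : ℤ)) :=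
  Gen.fac ((fac_big (fun x : Idx N C => T.E x.sch (x.2.2.2.2 : ℤ)) x).trans (fac_inl _ _)) Gen.base

lemma gen_M_L (N C : ℕ) : Gen V (T.M N C) T.L := Gen.fac (fac_inr _ _) Gen.base

lemma gen_M_bil {N C a b c : ℕ} (t : Fin a → Fin b → Fin c → ℚ)
    (ht : ∀ i j l, t i j l = 0 ∨ t i j l = 1) (n : ℕ) (ha : a < N) (hb : b < N) (hc : c < C)
    (hn : n < N) : Gen V (T.M N C) (T.E (bilS t) (n : ℤ)) := by
  classical
  let x : Idx N C := ⟨⟨a, ha⟩, ⟨b, hb⟩, ⟨c, hc⟩, fun i j l => decide (t i j l = 1), ⟨n, hn⟩⟩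
  have h1 : x.sch = bilS t := by
    have h2 : (fun i j l => if decide (t i j l = 1) = true then (1 : ℚ) else 0) = t := by
      funext i j l
      rcases ht i j l with h | h
      · rw [h]; simp
      · rw [h]; simp
    change bilS (fun i j l => if decide (t i j l = 1) = true then (1 : ℚ) else 0) = bilS t
    rw [h2]
  have h2 := comp_gen (V := V) (T := T) x
  rw [h1] at h2
  exact h2

lemma M_mono {N N' C C' : ℕ} (hN : N ≤ N') (hC : C ≤ C') : Gen V (T.M N' C') (T.M N C) := by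
  refine Gen.sum (Gen.bigsum _ fun x => ?_) (gen_M_L N' C')
  obtain ⟨a, b, c, t, i⟩ := x
  exact comp_gen (V := V) (T := T) (N := N') (C := C')
    ⟨⟨a, a.2.trans_le hN⟩, ⟨b, b.2.trans_le hN⟩, ⟨c, c.2.trans_le hC⟩, t, ⟨i, i.2.trans_le hN⟩⟩

lemma dir_M (C : ℕ) : IsDir V fun N => T.M N C := fun i j =>
  ⟨max i j, M_mono (le_max_left _ _) le_rfl, M_mono (le_max_right _ _) le_rfl⟩

lemma ft_bilS {a b c : ℕ} (t : Fin a → Fin b → Fin c → ℚ) : FT True (bilS t) := by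
  rw [bilS]
  exact ft_aff True

/-- The explicit motives generate the cohomology of all schemes of dimension at most `d`. -/
theorem gen_of_dim (hT : IsCoh V T) (d : ℕ) (Y : Sch ℚ) (hY : FT True Y)
    (hd : topologicalKrullDim Y.left ≤ d) : PE V T (fun N => T.M N (d + 3)) Y := by
  refine (r_dim_frac isFrac_rat (ru_of_dir hT (dir_M (d + 3)) ⟨0, gen_M_L _ _⟩) d).2 ?_ Y hY hd
  intro a b t ht i
  rcases lt_or_ge i 0 with hi | hi
  · exact ⟨0, gen_zero (hT.negative _ (ft_bilS t) i hi)⟩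
  · obtain ⟨n, rfl⟩ := Int.eq_ofNat_of_zero_le hi
    exact ⟨a + b + n + 1, gen_M_bil t ht n (by omega) (by omega) (by omega) (by omega)⟩

/-- smooth projective schemes of dimension at most `d`, and a bound for the degrees -/
abbrev SP (d : ℕ) : Type 1 :=
  {X : Sch QBar // SmProj X ∧ topologicalKrullDim X.left ≤ d} × ℕ

/-- the family of the cohomology of smooth projective schemes and the Lefschetz motive -/
noncomputable def fam (T : Coh 𝒜) (d : ℕ) (x : SP d) : 𝒜 := T.tot x.1.1 x.2 ⊞ T.L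

lemma gen_tot_H (hT : IsCoh V T) {X : Sch QBar} (hX : SmProj X) (i : ℤ) (n : ℕ) (hi : i < n) :
    Gen V (T.tot X n) (T.H X i) := by
  rcases lt_or_ge i 0 with h | h
  · exact gen_zero (hT.negativeH X hX i h)
  · obtain ⟨m, rfl⟩ := Int.eq_ofNat_of_zero_le h
    exact Gen.fac (fac_big (fun q : Fin n => T.H X (q : ℤ)) ⟨m, by omega⟩) Gen.base

lemma gen_tot_tot (hT : IsCoh V T) {X X' : Sch QBar} (hX' : SmProj X')
    (h : ∀ i, Fac (T.H X i) (T.H X' i)) {n n' : ℕ} (hn : n ≤ n') :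
    Gen V (T.tot X' n') (T.tot X n) :=
  Gen.bigsum _ fun q => Gen.fac (h q) (gen_tot_H hT hX' q n' (by omega))

lemma dir_fam (hT : IsCoh V T) (d : ℕ) : IsDir V (fam T d) := by
  rintro ⟨⟨X, hX, hXd⟩, n⟩ ⟨⟨X', hX', hXd'⟩, n'⟩
  obtain ⟨X'', hX'', hd'', h⟩ := hT.disjoint d X X' hX hXd hX' hXd'
  refine ⟨⟨⟨X'', hX'', hd''⟩, max n n'⟩, ?_, ?_⟩
  · exact Gen.sum (Gen.trans (Gen.fac (fac_inl _ _) Gen.base)
      (gen_tot_tot hT hX'' (fun i => (h i).1) (le_max_left _ _))) (Gen.fac (fac_inr _ _) Gen.base)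
  · exact Gen.sum (Gen.trans (Gen.fac (fac_inl _ _) Gen.base)
      (gen_tot_tot hT hX'' (fun i => (h i).2) (le_max_right _ _))) (Gen.fac (fac_inr _ _) Gen.base)

end Pool.Agent.Y116.MC
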