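import Pool.Agent.Y116.MC.Eng

/-!
# The motives of smooth projective schemes and the explicit motives
-/

set_option autoImplicit false
set_option linter.unusedSectionVars false

open CategoryTheory Limits MonoidalCategory AlgebraicGeometry

namespace Pool.Agent.Y116.MC

open Pool.Agent.Y116.UV Pool.Agent.Y101.Th Pool.Agent.Y101.Th.RX

universe v u w

attribute [local instance] Abelian.hasFiniteBiproducts

variable {𝒜 : Type u} [Category.{v} 𝒜] [Abelian 𝒜] [MonoidalCategory 𝒜]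
  {F : Type} [Field F] {V : 𝒜 ⥤ ModuleCat.{0} F} {T : Coh 𝒜}

/-! ### From the explicit motives to smooth projective schemes -/

lemma tot_gen_M (hT : IsCoh V T) (d : ℕ) (X : Sch QBar) (hX : SmProj X)
    (hd : topologicalKrullDim X.left ≤ d) (n : ℕ) :
    ∃ N, Gen V (T.M N (d + 3)) (T.tot X n) := by
  obtain ⟨Y, hY, hYd, h⟩ := hT.model X hX
  refine dir_big (dir_M (d + 3)) _ fun q => ?_
  obtain ⟨N, hN⟩ := gen_of_dim hT d Y hY (hYd d hd) (q : ℤ)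
  exact ⟨N, Gen.fac (h _) hN⟩

lemma dir_MM : IsDir V fun N => T.M N N := fun i j =>
  ⟨max i j, M_mono (le_max_left _ _) (le_max_left _ _),
    M_mono (le_max_right _ _) (le_max_right _ _)⟩

lemma gen_all (hT : IsCoh V T) (Y : Sch ℚ) (hY : FT True Y) : PE V T (fun N => T.M N N) Y := by
  refine (r_all_frac isFrac_rat (ru_of_dir hT dir_MM ⟨0, gen_M_L _ _⟩)).2 ?_ Y hY
  intro a b c t ht i
  rcases lt_or_ge i 0 with hi | hi
  · exact ⟨0, gen_zero (hT.negative _ (ft_bilS t) i hi)⟩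
  · obtain ⟨n, rfl⟩ := Int.eq_ofNat_of_zero_le hi
    exact ⟨a + b + c + n + 1, gen_M_bil t ht n (by omega) (by omega) (by omega) (by omega)⟩

lemma tot_gen_MM (hT : IsCoh V T) (X : Sch QBar) (hX : SmProj X) (n : ℕ) :
    ∃ N, Gen V (T.M N N) (T.tot X n) := by
  obtain ⟨Y, hY, _, h⟩ := hT.model X hX
  refine dir_big dir_MM _ fun q => ?_
  obtain ⟨N, hN⟩ := gen_all hT Y hY (q : ℤ)
  exact ⟨N, Gen.fac (h _) hN⟩

/-! ### From smooth projective schemes to bilinear equations -/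

lemma nonempty_SP (hT : IsCoh V T) (d : ℕ) : Nonempty (SP d) := by
  obtain ⟨X, hX, hd, _⟩ := hT.resolution (aff ℚ ℚ) (ft_aff True) 0
    (by rw [Pool.Agent.Z125.UN.topDim_aff, ringKrullDim_eq_zero_of_field]; rfl) 0
  exact ⟨⟨⟨X, hX, hd.trans (by exact_mod_cast Nat.zero_le d)⟩, 0⟩⟩

lemma ru_fam (hT : IsCoh V T) (d : ℕ) : RU True (PE V T (fam T d)) := by
  obtain ⟨x⟩ := nonempty_SP hT d
  exact ru_of_dir hT (dir_fam hT d) ⟨x, Gen.fac (fac_inr _ _) Gen.base⟩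

lemma fam_dim (hT : IsCoh V T) (d : ℕ) (Y : Sch ℚ) (hY : FT True Y)
    (hd : topologicalKrullDim Y.left ≤ d) : PE V T (fam T d) Y := by
  intro i
  obtain ⟨X, hX, hXd, n, h⟩ := hT.resolution Y hY d hd i
  exact ⟨⟨⟨X, hX, hXd⟩, n⟩, Gen.fac (h.trans (fac_inl _ _)) Gen.base⟩

/-- the cohomology of the solutions of bilinear equations with at most `d + 2` variables `z` is
generated by smooth projective schemes of dimension at most `d` and the Lefschetz motive -/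
theorem bil_fam (hT : IsCoh V T) (d : ℕ) {a b c : ℕ} (t : Fin a → Fin b → Fin c → ℚ)
    (hm : b ≤ d + 2 ∨ c ≤ d + 2) : PE V T (fam T d) (bilS t) :=
  bil_either (ru_fam hT d).dn ((r_dim (ru_fam hT d) d).1 (fam_dim hT d)) t hm

theorem M_fam (hT : IsCoh V T) (d N : ℕ) : ∃ x, Gen V (fam T d x) (T.M N (d + 3)) := by
  have := nonempty_SP hT d
  have h1 : ∃ x, Gen V (fam T d x) (⨁ fun x : Idx N (d + 3) => T.E x.sch (x.2.2.2.2 : ℤ)) := by
    refine dir_big (dir_fam hT d) _ fun x => ?_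
    obtain ⟨a, b, c, t, i⟩ := x
    exact bil_fam hT d _ (Or.inr (Nat.lt_succ_iff.mp c.2)) _
  obtain ⟨x, hx⟩ := h1
  exact ⟨x, Gen.sum hx (Gen.fac (fac_inr _ _) Gen.base)⟩

/-- without the Lefschetz motive in positive dimension -/
lemma fam_tot (hT : IsCoh V T) {d : ℕ} (hd : 1 ≤ d) (x : SP d) :
    ∃ (X : Sch QBar) (_ : SmProj X) (_ : topologicalKrullDim X.left ≤ d) (n : ℕ),
      Gen V (T.tot X n) (fam T d x) := by
  obtain ⟨⟨X, hX, hXd⟩, n⟩ := x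
  obtain ⟨P, hP, _, hPd, hPL⟩ := hT.line
  obtain ⟨X'', hX'', hd'', h⟩ := hT.disjoint d X P hX hXd hP (hPd.trans (by exact_mod_cast hd))
  refine ⟨X'', hX'', hd'', max n 3, Gen.sum ?_ ?_⟩
  · exact gen_tot_tot hT hX'' (fun i => (h i).1) (le_max_left _ _)
  · refine Gen.fac (hPL.trans (h 2).2) (gen_tot_H hT hX'' 2 _ ?_)
    have : 3 ≤ max n 3 := le_max_right _ _
    omega

theorem M_tot (hT : IsCoh V T) {d : ℕ} (hd : 1 ≤ d) (N : ℕ) :
    ∃ (X : Sch QBar) (_ : SmProj X) (_ : topologicalKrullDim X.left ≤ d) (n : ℕ),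
      Gen V (T.tot X n) (T.M N (d + 3)) := by
  obtain ⟨x, hx⟩ := M_fam hT d N
  obtain ⟨X, hX, hXd, n, h⟩ := fam_tot hT hd x
  exact ⟨X, hX, hXd, n, h.trans hx⟩

/-! ### One degree of one variety -/

lemma Fac.unit_right {A B C : 𝒜} (h : Fac A B) (hC : Fac (𝟙_ 𝒜) C) : Fac A (B ⊗ C) :=
  (Fac.of_iso (ρ_ A).symm).trans (h.tensor hC)

lemma Fac.unit_left {A B C : 𝒜} (h : Fac A B) (hC : Fac (𝟙_ 𝒜) C) : Fac A (C ⊗ B) :=
  (Fac.of_iso (λ_ A).symm).trans (hC.tensor h)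

/-- irreducible smooth projective schemes -/
abbrev Irr : Type 1 := {X : Sch QBar // SmProj X ∧ IrreducibleSpace X.left}

lemma irr_prod (hT : IsCoh V T) (X Y : Irr) : ∃ Z : Irr,
    ∀ i j, Fac (T.H X.1 i ⊗ T.H Y.1 j) (T.H Z.1 (i + j)) := by
  obtain ⟨Z, hZ, hZ', h⟩ := hT.kunneth X.1 Y.1 X.2.1 X.2.2 Y.2.1 Y.2.2
  exact ⟨⟨Z, hZ, hZ'⟩, h⟩

lemma irr_two (hT : IsCoh V T) (X Y : Irr) : ∃ Z : Irr,
    ∀ i, Fac (T.H X.1 i) (T.H Z.1 i) ∧ Fac (T.H Y.1 i) (T.H Z.1 i) := by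
  obtain ⟨Z, h⟩ := irr_prod hT X Y
  refine ⟨Z, fun i => ⟨?_, ?_⟩⟩
  · have h1 := h i 0
    rw [add_zero] at h1
    exact (Fac.unit_right (Fac.refl _) (hT.unit Y.1 Y.2.1 Y.2.2)).trans h1
  · have h1 := h 0 i
    rw [zero_add] at h1
    exact (Fac.unit_left (Fac.refl _) (hT.unit X.1 X.2.1 X.2.2)).trans h1

lemma nonempty_irr (hT : IsCoh V T) : Nonempty Irr := by
  obtain ⟨P, hP, hP', _⟩ := hT.line
  exact ⟨⟨P, hP, hP'⟩⟩

lemma irr_fin (hT : IsCoh V T) {r : ℕ} (Y : Fin r → Irr) : ∃ Z : Irr,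
    ∀ k i, Fac (T.H (Y k).1 i) (T.H Z.1 i) := by
  classical
  suffices H : ∀ s : Finset (Fin r), ∃ Z : Irr, ∀ k ∈ s, ∀ i, Fac (T.H (Y k).1 i) (T.H Z.1 i) by
    obtain ⟨Z, hZ⟩ := H Finset.univ
    exact ⟨Z, fun k => hZ k (Finset.mem_univ k)⟩
  intro s
  induction s using Finset.induction_on with
  | empty =>
    obtain ⟨P⟩ := nonempty_irr hT
    exact ⟨P, fun j hj => absurd hj (Finset.notMem_empty j)⟩
  | insert a s _ ih =>
    obtain ⟨Z, hZ⟩ := ih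
    obtain ⟨W, hW⟩ := irr_two hT (Y a) Z
    refine ⟨W, fun k hk i => ?_⟩
    rcases Finset.mem_insert.mp hk with rfl | hk
    · exact (hW i).1
    · exact (hZ k hk i).trans (hW i).2

lemma proj_pow (hT : IsCoh V T) (m : ℕ) : ∃ P : Irr, ∀ j : ℕ, j ≤ m →
    Fac (lpow T.L j) (T.H P.1 (2 * (j : ℤ))) := by
  obtain ⟨P, hP, hP', _, hPL⟩ := hT.line
  induction m with
  | zero =>
    refine ⟨⟨P, hP, hP'⟩, fun j hj => ?_⟩
    obtain rfl : j = 0 := by omega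
    exact hT.unit P hP hP'
  | succ m ih =>
    obtain ⟨Q, hQ⟩ := ih
    obtain ⟨Z, hZ⟩ := irr_prod hT Q ⟨P, hP, hP'⟩
    refine ⟨Z, fun j hj => ?_⟩
    rcases Nat.lt_or_ge j (m + 1) with h | h
    · have h1 := hZ (2 * (j : ℤ)) 0
      rw [add_zero] at h1
      exact (Fac.unit_right (hQ j (by omega)) (hT.unit P hP hP')).trans h1
    · obtain rfl : j = m + 1 := by omega
      have h1 := hZ (2 * (m : ℤ)) 2
      have h2 : 2 * (m : ℤ) + 2 = 2 * ((m + 1 : ℕ) : ℤ) := by push_cast; ring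
      rw [h2] at h1
      exact ((hQ m (by omega)).tensor hPL).trans h1

noncomputable def lpowAdd (L : 𝒜) (a : ℕ) : ∀ b : ℕ, lpow L (a + b) ≅ lpow L a ⊗ lpow L b
  | 0 => (ρ_ (lpow L a)).symm
  | b + 1 => whiskerRightIso (lpowAdd L a b) L ≪≫ α_ (lpow L a) (lpow L b) L

lemma gen_root {A L : 𝒜} (s : ℕ) (h : Gen V A (lpow L (2 ^ s))) : Gen V A L := by
  induction s with
  | zero =>
    have e : lpow L (2 ^ 0) ≅ L := λ_ L
    exact Gen.fac (Fac.of_iso e.symm) h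
  | succ s ih =>
    apply ih
    apply Gen.root
    have h1 : (2 : ℕ) ^ (s + 1) = 2 ^ s + 2 ^ s := by ring
    rw [h1] at h
    exact Gen.fac (Fac.of_iso (lpowAdd L (2 ^ s) (2 ^ s)).symm) h

lemma nontrivial_iso {A B : ModuleCat.{0} F} (e : A ≅ B) (h : Nontrivial A) : Nontrivial B :=
  e.toLinearEquiv.toEquiv.nontrivial_congr.mp h

open TensorProduct in
lemma nontrivial_tensor [V.Monoidal] {A B : 𝒜} (hA : Nontrivial (V.obj A))
    (hB : Nontrivial (V.obj B)) : Nontrivial (V.obj (A ⊗ B)) := by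
  refine nontrivial_iso (Functor.Monoidal.μIso V A B) ?_
  change Nontrivial (V.obj A ⊗[F] V.obj B)
  infer_instance

lemma nontrivial_unit [V.Monoidal] : Nontrivial (V.obj (𝟙_ 𝒜)) := by
  refine nontrivial_iso (Functor.Monoidal.εIso V) ?_
  change Nontrivial F
  infer_instance

lemma nontrivial_lpow [V.Monoidal] {L : 𝒜} (hL : Nontrivial (V.obj L)) (n : ℕ) :
    Nontrivial (V.obj (lpow L n)) := by
  induction n with
  | zero => exact nontrivial_unit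
  | succ n ih => exact nontrivial_tensor ih hL

/-- all cohomology of `X` in degrees at most `2^s` is generated by one cohomology group of
`X × X × (ℙ^1)^(2^s)` -/
lemma one_degree [V.Monoidal] (hT : IsCoh V T) (X : Irr) (s : ℕ) : ∃ (Z : Irr) (j : ℤ),
    ∀ q : ℕ, q ≤ 2 ^ s → Gen V (T.H Z.1 j) (T.H X.1 (q : ℤ)) := by
  obtain ⟨W, hW⟩ := irr_prod hT X X
  obtain ⟨P, hP⟩ := proj_pow hT (2 ^ s)
  obtain ⟨Z, hZ⟩ := irr_prod hT W P
  have h0 := hT.unit X.1 X.2.1 X.2.2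
  refine ⟨Z, 2 * ((2 ^ s : ℕ) : ℤ), fun q hq => ?_⟩
  have hL : Gen V (T.H Z.1 (2 * ((2 ^ s : ℕ) : ℤ))) T.L := by
    apply gen_root s
    refine Gen.fac ?_ Gen.base
    have h1 := hZ 0 (2 * ((2 ^ s : ℕ) : ℤ))
    rw [zero_add] at h1
    have h2 := hW 0 0
    rw [zero_add] at h2
    have h3 : Fac (𝟙_ 𝒜) (T.H W.1 0) := (Fac.unit_right h0 h0).trans h2
    exact (Fac.unit_left (hP (2 ^ s) le_rfl) h3).trans h1
  apply Gen.root
  refine Gen.cancel (C := lpow T.L (2 ^ s - q)) (nontrivial_lpow hT.lefschetz _) ?_ (gen_lpow hL _)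
  have h1 := hZ ((q : ℤ) + q) (2 * ((2 ^ s - q : ℕ) : ℤ))
  have h2 : (q : ℤ) + q + 2 * ((2 ^ s - q : ℕ) : ℤ) = 2 * ((2 ^ s : ℕ) : ℤ) := by
    rw [Nat.cast_sub hq]
    ring
  rw [h2] at h1
  exact Gen.fac (((hW q q).tensor (hP (2 ^ s - q) (Nat.sub_le _ _))).trans h1) Gen.base

/-- all cohomology of `X` in degrees smaller than `n` is generated by one cohomology group of one
irreducible smooth projective scheme -/
theorem tot_one [V.Monoidal] (hT : IsCoh V T) (X : Sch QBar) (hX : SmProj X) (n : ℕ) :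
    ∃ (Z : Irr) (j : ℤ), Gen V (T.H Z.1 j) (T.tot X n) := by
  obtain ⟨r, Y, hY, hc⟩ := hT.components X hX
  obtain ⟨W, hW⟩ := irr_fin hT fun k => ⟨Y k, hY k⟩
  obtain ⟨Z, j, hZ⟩ := one_degree hT W n
  refine ⟨Z, j, Gen.bigsum _ fun q => Gen.fac (hc q) (Gen.bigsum _ fun k => Gen.fac (hW k q) ?_)⟩
  exact hZ q (q.2.le.trans Nat.lt_two_pow_self.le)

end Pool.Agent.Y116.MC
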