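import Pool.Agent.Y116.MC.Defs

/-!
# Second cohomology with the Tate twist: definitions
-/

set_option autoImplicit false

open CategoryTheory Limits MonoidalCategory AlgebraicGeometry

namespace Pool.Agent.Y116.MC

open Pool.Agent.Y116.UV Pool.Agent.Y101.Th

universe v u

variable {𝒜 : Type u} [Category.{v} 𝒜] [Abelian 𝒜] [MonoidalCategory 𝒜]
  {F : Type} [Field F] {V : 𝒜 ⥤ ModuleCat.{0} F} [V.Monoidal]

/-- `𝔤` is stable under the addition of the multiples of the derivation `w`. -/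
def Stable (w : Der V) (𝔤 : Set (Der V)) : Prop :=
  ∀ D ∈ 𝔤, ∀ c : F, ∃ D' ∈ 𝔤, ∀ A : 𝒜, D'.app.app A = D.app.app A + c • w.app.app A

/-- Known properties of the Tate motive `L' = ℚ(1)` and of the weight derivation `w` (multiplication
by the weight): the inverse of `L`; `V(L)` has dimension one; the weights of `L`, `L'` and of the
`h^i(X)`; for smooth projective `X` of dimension at most two the cohomology in degrees `q ≥ 3` is a
direct factor of twists of `h^0(X)` or `h^1(X)` (hard Lefschetz theorem); for every irreducible `X`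
there is an irreducible `S` of dimension at most two such that `h^2(X)` is a direct factor of
`h^2(S)` (Lefschetz hyperplane theorem). -/
structure IsTwo (V : 𝒜 ⥤ ModuleCat.{0} F) [V.Monoidal] (T : Coh 𝒜) (L' : 𝒜) (w : Der V) :
    Prop where
  inverse : Nonempty (L' ⊗ T.L ≅ 𝟙_ 𝒜)
  rank : Module.finrank F (V.obj T.L) = 1
  weight_L : w.app.app T.L = (2 : F) • 𝟙 (V.obj T.L)
  weight_L' : w.app.app L' = (-2 : F) • 𝟙 (V.obj L')
  weight_H : ∀ X : Sch QBar, SmProj X → ∀ i : ℤ, w.app.app (T.H X i) = (i : F) • 𝟙 _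
  high : ∀ X : Sch QBar, SmProj X → topologicalKrullDim X.left ≤ (2 : ℕ) → ∀ q : ℕ, 3 ≤ q →
    ∃ j m : ℕ, j ≤ 1 ∧ Fac (T.H X (q : ℤ)) (T.H X (j : ℤ) ⊗ lpow T.L m)
  hyperplane : ∀ X : Sch QBar, SmProj X → IrreducibleSpace X.left → ∃ S : Sch QBar, SmProj S ∧
    IrreducibleSpace S.left ∧ topologicalKrullDim S.left ≤ (2 : ℕ) ∧ Fac (T.H X 2) (T.H S 2)

end Pool.Agent.Y116.MC
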