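import Pool.Agent.Y116.MC.Main
import Pool.Agent.Y116.MC.TwoDefs

/-!
# Second cohomology with the Tate twist
-/

set_option autoImplicit false
set_option linter.unusedSectionVars false

open CategoryTheory Limits MonoidalCategory AlgebraicGeometry

namespace Pool.Agent.Y116.MC

open Pool.Agent.Y116.UV Pool.Agent.Y101.Th Pool.Agent.Y101.Th.RX

universe v u

attribute [local instance] Abelian.hasFiniteBiproducts

variable {𝒜 : Type u} [Category.{v} 𝒜] [Abelian 𝒜] [MonoidalCategory 𝒜]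
  {F : Type} [Field F] {V : 𝒜 ⥤ ModuleCat.{0} F} [V.Monoidal] {T : Coh 𝒜} {L' : 𝒜} {w : Der V}

lemma gen_L' (hw : IsTwo V T L' w) (hT : IsCoh V T) {A : 𝒜} (h : Gen V A T.L) : Gen V A L' := by
  obtain ⟨e⟩ := hw.inverse
  exact Gen.cancel hT.lefschetz (Gen.fac (Fac.of_iso e) Gen.unit) h

lemma fac_untwist (hw : IsTwo V T L' w) (A : 𝒜) : Fac A ((A ⊗ L') ⊗ T.L) := by
  obtain ⟨e⟩ := hw.inverse
  exact Fac.of_iso ((ρ_ A).symm ≪≫ whiskerLeftIso A e.symm ≪≫ (α_ A L' T.L).symm)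

lemma der_sum [V.Additive] {B C : 𝒜} (D D' : Der V) (h1 : D.app.app B = D'.app.app B)
    (h2 : D.app.app C = D'.app.app C) : D.app.app (B ⊞ C) = D'.app.app (B ⊞ C) := by
  have key : ∀ D : Der V, D.app.app (B ⊞ C) =
      V.map biprod.fst ≫ D.app.app B ≫ V.map biprod.inl +
        V.map biprod.snd ≫ D.app.app C ≫ V.map biprod.inr := by
    intro D
    have e : 𝟙 (V.obj (B ⊞ C)) = V.map biprod.fst ≫ V.map biprod.inl +
        V.map biprod.snd ≫ V.map biprod.inr := by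
      rw [← V.map_comp, ← V.map_comp, ← V.map_add, biprod.total, V.map_id]
    rw [← D.app.naturality, ← D.app.naturality, ← Category.assoc, ← Category.assoc,
      ← Preadditive.add_comp, ← e, Category.id_comp]
  rw [key D, key D', h1, h2]

/-- the weight derivation vanishes on `h^2(X)(1)` -/
lemma weight_two (hw : IsTwo V T L' w) (X : Sch QBar) (hX : SmProj X) :
    w.app.app (T.H X 2 ⊗ L') = 0 := by
  rw [der_tensor, hw.weight_H X hX 2, hw.weight_L']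
  have h1 : (((2 : ℤ) : F) • 𝟙 (V.obj (T.H X 2))) ▷ V.obj L' +
      V.obj (T.H X 2) ◁ ((-2 : F) • 𝟙 (V.obj L')) = 0 := by
    rw [MonoidalLinear.smul_whiskerRight, MonoidalLinear.whiskerLeft_smul, id_whiskerRight,
      whiskerLeft_id, ← add_smul]
    push_cast
    rw [add_neg_cancel, zero_smul]
  rw [h1, zero_comp, comp_zero]

/-- an endomorphism of `V(L)` is a scalar -/
lemma scalar_L (hw : IsTwo V T L' w) (f : V.obj T.L ⟶ V.obj T.L) : ∃ c : F, f = c • 𝟙 _ := by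
  obtain ⟨v, hv, hs⟩ := finrank_eq_one_iff'.mp hw.rank
  obtain ⟨c, hc⟩ := hs (f v)
  refine ⟨c, ?_⟩
  apply ModuleCat.hom_ext
  ext x
  obtain ⟨a, rfl⟩ := hs x
  change f.hom (a • v) = c • (a • v)
  rw [map_smul, smul_comm c a v, hc]

/-- half of the untwisting -/
lemma untwist_aux [CharZero F] [V.Additive] (hw : IsTwo V T L' w) {𝔤 𝔥 : Set (Der V)}
    (h𝔥 : Stable w 𝔥) (X : Sch QBar) (hX : SmProj X)
    (h : (fun D : Der V => D.app.app (T.H X 2 ⊗ L')) '' 𝔤 ⊆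
      (fun D : Der V => D.app.app (T.H X 2 ⊗ L')) '' 𝔥) :
    (fun D : Der V => D.app.app ((T.H X 2 ⊗ L') ⊞ T.L)) '' 𝔤 ⊆
      (fun D : Der V => D.app.app ((T.H X 2 ⊗ L') ⊞ T.L)) '' 𝔥 := by
  rintro _ ⟨D, hD, rfl⟩
  obtain ⟨D', hD', h1⟩ := h ⟨D, hD, rfl⟩
  obtain ⟨c, hc⟩ := scalar_L hw (D.app.app T.L - D'.app.app T.L)
  obtain ⟨D'', hD'', h2⟩ := h𝔥 D' hD' (c / 2)
  refine ⟨D'', hD'', der_sum _ _ ?_ ?_⟩
  · rw [h2, weight_two hw X hX, smul_zero, add_zero]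
    exact h1
  · rw [h2, hw.weight_L, smul_smul, div_mul_cancel₀ c two_ne_zero, ← hc, add_sub_cancel]

lemma untwist [CharZero F] [V.Additive] (hw : IsTwo V T L' w) {𝔤 𝔥 : Set (Der V)}
    (h𝔤 : Stable w 𝔤) (h𝔥 : Stable w 𝔥) (X : Sch QBar) (hX : SmProj X)
    (h : Agree 𝔤 𝔥 (T.H X 2 ⊗ L')) : Agree 𝔤 𝔥 (T.H X 2) := by
  have h1 : Agree 𝔤 𝔥 ((T.H X 2 ⊗ L') ⊞ T.L) :=
    Set.Subset.antisymm (untwist_aux hw h𝔥 X hX h.subset) (untwist_aux hw h𝔤 X hX h.symm.subset)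
  refine agree_of_gen ?_ h1
  exact Gen.fac (fac_untwist hw _) (Gen.tensor (Gen.fac (fac_inl _ _) Gen.base)
    (Gen.fac (fac_inr _ _) Gen.base))

/-- cohomology in degrees at most two is generated by second cohomology of a product -/
lemma irr_deg_two (hT : IsCoh V T) (W : Irr) : ∃ Z : Irr, Gen V (T.H Z.1 2) T.L ∧
    ∀ j : ℕ, j ≤ 2 → Gen V (T.H Z.1 2) (T.H W.1 (j : ℤ)) := by
  obtain ⟨P, hP, hP', _, hPL⟩ := hT.line
  obtain ⟨W', hW'⟩ := irr_two hT W ⟨P, hP, hP'⟩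
  obtain ⟨Z, hZ⟩ := irr_prod hT W' W'
  have h0 := hT.unit W'.1 W'.2.1 W'.2.2
  have h2 : Fac (T.H W'.1 2) (T.H Z.1 2) := by
    have h := hZ 2 0
    rw [add_zero] at h
    exact (Fac.unit_right (Fac.refl _) h0).trans h
  have hL : Gen V (T.H Z.1 2) T.L := Gen.fac ((hPL.trans (hW' 2).2).trans h2) Gen.base
  refine ⟨Z, hL, fun j hj => Gen.fac (hW' j).1 ?_⟩
  obtain rfl | rfl | rfl : j = 0 ∨ j = 1 ∨ j = 2 := by omega
  · refine Gen.cancel hT.lefschetz ?_ hL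
    have h := hZ 0 2
    rw [zero_add] at h
    exact Gen.fac (((Fac.refl _).tensor (hPL.trans (hW' 2).2)).trans h) Gen.base
  · apply Gen.root
    have h := hZ 1 1
    exact Gen.fac h Gen.base
  · exact Gen.fac h2 Gen.base

lemma tot_two (hT : IsCoh V T) (hw : IsTwo V T L' w) (X : Sch QBar) (hX : SmProj X)
    (hd : topologicalKrullDim X.left ≤ (2 : ℕ)) (n : ℕ) :
    ∃ Z : Irr, Gen V (T.H Z.1 2) (T.tot X n) := by
  obtain ⟨r, Y, hY, hc⟩ := hT.components X hX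
  obtain ⟨W, hW⟩ := irr_fin hT fun k => ⟨Y k, hY k⟩
  obtain ⟨Z, hL, hZ⟩ := irr_deg_two hT W
  have low : ∀ j : ℕ, j ≤ 2 → Gen V (T.H Z.1 2) (T.H X (j : ℤ)) := fun j hj =>
    Gen.fac (hc j) (Gen.bigsum _ fun k => Gen.fac (hW k j) (hZ j hj))
  refine ⟨Z, Gen.bigsum _ fun q => ?_⟩
  rcases Nat.lt_or_ge (q : ℕ) 3 with h | h
  · exact low q (by omega)
  · obtain ⟨j, m, hj, hf⟩ := hw.high X hX hd q h
    exact Gen.fac hf (Gen.tensor (low j (by omega)) (gen_lpow hL m))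

end Pool.Agent.Y116.MC
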